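import Mathlib

/-!
# Backward branches and special alpha-limit sets
-/

namespace Pool.Agent.Lib.MP_2df7e1_an

open Filter Topology

/-- `u` is a backward orbit branch of `x` under `f`: `u 0 = x` and `f (u (n+1)) = u n`. -/
def IsBranch {X : Type} (f : X → X) (x : X) (u : ℕ → X) : Prop :=
  u 0 = x ∧ ∀ n, f (u (n + 1)) = u n

/-- The special `α`-limit set of `x`: the union over all backward orbit branches of `x` of the
sets of their accumulation points (limits of `u (k i)` with `k i → ∞`). -/
def sAlpha {X : Type} [TopologicalSpace X] (f : X → X) (x : X) : Set X :=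
  {y | ∃ u : ℕ → X, IsBranch f x u ∧
    ∃ k : ℕ → ℕ, Tendsto k atTop atTop ∧ Tendsto (fun i => u (k i)) atTop (𝓝 y)}

end Pool.Agent.Lib.MP_2df7e1_an
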