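import Pool.Agent.Lib.MP_2df7e1_an.Defs

section

/-!
# Constructing backward branches on the line
-/

namespace Pool.Agent.Lib.MP_2df7e1_an

open Filter Topology Set Function

theorem IsBranch.iter {X : Type} {f : X → X} {x : X} {u : ℕ → X} (h : IsBranch f x u) (n m : ℕ) :
    f^[m] (u (n + m)) = u n := by
  induction m generalizing n with
  | zero => rfl
  | succ m ih =>
    rw [iterate_succ_apply, show n + (m + 1) = (n + m) + 1 by ring, h.2 (n + m), ih]

theorem IsBranch.iter' {X : Type} {f : X → X} {x : X} {u : ℕ → X} (h : IsBranch f x u) {n m : ℕ}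
    (hnm : n ≤ m) : f^[m - n] (u m) = u n := by
  have := h.iter n (m - n)
  rwa [show n + (m - n) = m by omega] at this

theorem mem_sAlpha_iff {F : ℝ → ℝ} {x y : ℝ} : y ∈ sAlpha F x ↔
    ∃ u : ℕ → ℝ, IsBranch F x u ∧ ∀ ε > 0, ∀ N : ℕ, ∃ n ≥ N, |u n - y| < ε := by
  constructor
  · rintro ⟨u, hu, k, hk, hlim⟩
    refine ⟨u, hu, fun ε hε N => ?_⟩
    rw [Metric.tendsto_atTop] at hlim
    obtain ⟨M, hM⟩ := hlim ε hε
    obtain ⟨i, hi1, hi2⟩ := ((tendsto_atTop.1 hk N).and (eventually_ge_atTop M)).exists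
    exact ⟨k i, hi1, hM i hi2⟩
  · rintro ⟨u, hu, h⟩
    refine ⟨u, hu, ?_⟩
    choose k hk1 hk2 using fun i : ℕ => h (1 / ((i : ℝ) + 1)) (by positivity) i
    refine ⟨k, tendsto_atTop_mono hk1 tendsto_id, ?_⟩
    rw [tendsto_iff_dist_tendsto_zero]
    refine squeeze_zero (fun _ => dist_nonneg) (fun i => (hk2 i).le) ?_
    exact tendsto_one_div_add_atTop_nhds_zero_nat

/-- The chain lemma: if from every point of `S` one can go backwards to another point of `S`,
passing arbitrarily close to `y`, then `y` is in the special alpha-limit set of each point having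
a preimage in `S`. -/
theorem chain {F : ℝ → ℝ} {x y : ℝ} (S : Set ℝ) {z₀ : ℝ} (hz₀ : z₀ ∈ S) {k₀ : ℕ}
    (hk₀ : F^[k₀] z₀ = x)
    (hstep : ∀ z ∈ S, ∀ ε > 0, ∃ w ∈ S, ∃ n ≥ 1, ∃ m ≤ n, F^[n] w = z ∧ |F^[m] w - y| < ε) :
    y ∈ sAlpha F x := by
  choose! w hwS n hn m hm hFn hFm using hstep
  let s : ℕ → ℝ × ℕ := fun k => Nat.rec (z₀, k₀)
    (fun k p => (w p.1 (1 / ((k : ℝ) + 1)), p.2 + n p.1 (1 / ((k : ℝ) + 1)))) k
  have hs0 : s 0 = (z₀, k₀) := rfl
  have hs : ∀ k, s (k + 1) = (w (s k).1 (1 / ((k : ℝ) + 1)),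
      (s k).2 + n (s k).1 (1 / ((k : ℝ) + 1))) := fun k => rfl
  have hpos : ∀ k : ℕ, (0 : ℝ) < 1 / ((k : ℝ) + 1) := fun k => by positivity
  have hS : ∀ k, (s k).1 ∈ S := by
    intro k
    induction k with
    | zero => exact hz₀
    | succ k ih => rw [hs]; exact hwS _ ih _ (hpos k)
  have hN : ∀ k, k ≤ (s k).2 := by
    intro k
    induction k with
    | zero => exact Nat.zero_le _
    | succ k ih =>
      rw [hs]
      have := hn _ (hS k) _ (hpos k)
      simp only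
      omega
  have hmono : ∀ k, (s k).2 ≤ (s (k + 1)).2 := by
    intro k
    rw [hs]
    exact Nat.le_add_right _ _
  have hval1 : ∀ k j, j ≤ (s k).2 → F^[(s (k + 1)).2 - j] (s (k + 1)).1 =
      F^[(s k).2 - j] (s k).1 := by
    intro k j hj
    rw [hs]
    simp only
    rw [show (s k).2 + n (s k).1 (1 / ((k : ℝ) + 1)) - j =
      ((s k).2 - j) + n (s k).1 (1 / ((k : ℝ) + 1)) by omega, iterate_add_apply,
      hFn _ (hS k) _ (hpos k)]
  have hval : ∀ k j, j ≤ (s k).2 → ∀ K, k ≤ K → F^[(s K).2 - j] (s K).1 =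
      F^[(s k).2 - j] (s k).1 := by
    intro k j hj K hK
    induction K, hK using Nat.le_induction with
    | base => rfl
    | succ K hK ih =>
      have hjK : j ≤ (s K).2 := by
        clear ih
        induction K, hK using Nat.le_induction with
        | base => exact hj
        | succ K hK ih => exact ih.trans (hmono K)
      rw [hval1 K j hjK, ih]
  let u : ℕ → ℝ := fun j => F^[(s j).2 - j] (s j).1
  have hux : ∀ k, F^[(s k).2] (s k).1 = x := by
    intro k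
    have h := hval 0 0 (Nat.zero_le _) k (Nat.zero_le _)
    simp only [Nat.sub_zero] at h
    rw [h, hs0]
    exact hk₀
  rw [mem_sAlpha_iff]
  refine ⟨u, ⟨?_, ?_⟩, ?_⟩
  · show F^[(s 0).2 - 0] (s 0).1 = x
    exact hux 0
  · intro j
    show F (F^[(s (j + 1)).2 - (j + 1)] (s (j + 1)).1) = F^[(s j).2 - j] (s j).1
    rw [← iterate_succ_apply' F]
    have h1 := hN (j + 1)
    rw [show ((s (j + 1)).2 - (j + 1)).succ = (s (j + 1)).2 - j by omega]
    exact hval1 j j (hN j)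
  · intro ε hε N
    obtain ⟨k, hkN, hkε⟩ : ∃ k : ℕ, N ≤ k ∧ 1 / ((k : ℝ) + 1) < ε := by
      obtain ⟨k, hk⟩ := exists_nat_one_div_lt hε
      refine ⟨max N k, le_max_left _ _, lt_of_le_of_lt ?_ hk⟩
      apply one_div_le_one_div_of_le (by positivity)
      have : (k : ℝ) ≤ (max N k : ℕ) := by exact_mod_cast le_max_right N k
      linarith
    set mm := m (s k).1 (1 / ((k : ℝ) + 1)) with hmm
    have hmn : mm ≤ n (s k).1 (1 / ((k : ℝ) + 1)) := hm _ (hS k) _ (hpos k)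
    have hsk2 : (s (k + 1)).2 = (s k).2 + n (s k).1 (1 / ((k : ℝ) + 1)) := by rw [hs]
    have hsk1 : (s (k + 1)).1 = w (s k).1 (1 / ((k : ℝ) + 1)) := by rw [hs]
    refine ⟨(s (k + 1)).2 - mm, ?_, ?_⟩
    · have := hN k
      omega
    · set j := (s (k + 1)).2 - mm with hj
      have hj1 : j ≤ (s (k + 1)).2 := Nat.sub_le _ _
      have e1 := hval (k + 1) j hj1 (max (k + 1) j) (le_max_left _ _)
      have e2 := hval j j (hN j) (max (k + 1) j) (le_max_right _ _)
      have e3 : u j = F^[mm] (s (k + 1)).1 := by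
        show F^[(s j).2 - j] (s j).1 = _
        rw [← e2, e1, show (s (k + 1)).2 - j = mm by omega]
      rw [e3, hsk1]
      exact (hFm _ (hS k) _ (hpos k)).trans hkε

end Pool.Agent.Lib.MP_2df7e1_an
end

section

/-!
# Forward orbits of one-sided neighbourhoods and their components
-/

namespace Pool.Agent.Lib.MP_2df7e1_an

open Filter Topology Set Function

/-- the forward orbit of a set -/
def Orb (F : ℝ → ℝ) (U : Set ℝ) : Set ℝ := {z | ∃ n : ℕ, ∃ u ∈ U, F^[n] u = z}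

theorem sub_Orb (F : ℝ → ℝ) (U : Set ℝ) : U ⊆ Orb F U := fun u hu => ⟨0, u, hu, rfl⟩

theorem Orb_mono (F : ℝ → ℝ) {U V : Set ℝ} (h : U ⊆ V) : Orb F U ⊆ Orb F V := by
  rintro z ⟨n, u, hu, rfl⟩
  exact ⟨n, u, h hu, rfl⟩

theorem iter_Orb {F : ℝ → ℝ} {U : Set ℝ} {z : ℝ} (h : z ∈ Orb F U) (k : ℕ) :
    F^[k] z ∈ Orb F U := by
  obtain ⟨n, u, hu, rfl⟩ := h
  exact ⟨k + n, u, hu, iterate_add_apply F k n u⟩

/-- the component of the orbit of `(y, y+ε)` which contains `(y, y+ε)` -/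
def Cp (F : ℝ → ℝ) (y ε : ℝ) : Set ℝ := connectedComponentIn (Orb F (Ioo y (y + ε))) (y + ε / 2)

theorem mid_mem {y ε : ℝ} (hε : 0 < ε) : y + ε / 2 ∈ Ioo y (y + ε) := by
  constructor <;> linarith

theorem U_sub_Cp (F : ℝ → ℝ) {y ε : ℝ} (hε : 0 < ε) : Ioo y (y + ε) ⊆ Cp F y ε :=
  isPreconnected_Ioo.subset_connectedComponentIn (mid_mem hε) (sub_Orb F _)

theorem Cp_sub_Orb (F : ℝ → ℝ) (y ε : ℝ) : Cp F y ε ⊆ Orb F (Ioo y (y + ε)) :=
  connectedComponentIn_subset _ _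

theorem Cp_conn (F : ℝ → ℝ) (y ε : ℝ) : IsPreconnected (Cp F y ε) :=
  isPreconnected_connectedComponentIn

theorem Cp_ord (F : ℝ → ℝ) (y ε : ℝ) {a b c : ℝ} (ha : a ∈ Cp F y ε) (hb : b ∈ Cp F y ε)
    (h1 : a ≤ c) (h2 : c ≤ b) : c ∈ Cp F y ε :=
  (Cp_conn F y ε).ordConnected.out ha hb ⟨h1, h2⟩

theorem sub_Cp {F : ℝ → ℝ} {y ε : ℝ} {S : Set ℝ} (hS : IsPreconnected S)
    (hSO : S ⊆ Orb F (Ioo y (y + ε))) {z : ℝ} (hz : z ∈ S) (hzC : z ∈ Cp F y ε) :
    S ⊆ Cp F y ε := by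
  unfold Cp at *
  rw [connectedComponentIn_eq hzC]
  exact hS.subset_connectedComponentIn hz hSO

theorem Cp_mono (F : ℝ → ℝ) {y ε ε' : ℝ} (hε' : 0 < ε') (h : ε' ≤ ε) :
    Cp F y ε' ⊆ Cp F y ε := by
  have hsub : Ioo y (y + ε') ⊆ Ioo y (y + ε) := Ioo_subset_Ioo_right (by linarith)
  refine sub_Cp (Cp_conn F y ε') ((Cp_sub_Orb F y ε').trans (Orb_mono F hsub))
    (U_sub_Cp F hε' (mid_mem hε')) (U_sub_Cp F (lt_of_lt_of_le hε' h) (hsub (mid_mem hε')))

theorem mapsTo_of_inter {F : ℝ → ℝ} (hF : Continuous F) {y ε : ℝ} {n : ℕ} {z : ℝ}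
    (hz : z ∈ Cp F y ε) (hz' : F^[n] z ∈ Cp F y ε) : MapsTo F^[n] (Cp F y ε) (Cp F y ε) := by
  have h1 : IsPreconnected (F^[n] '' Cp F y ε) :=
    (Cp_conn F y ε).image _ (hF.iterate n).continuousOn
  have h2 : F^[n] '' Cp F y ε ⊆ Orb F (Ioo y (y + ε)) := by
    rintro _ ⟨w, hw, rfl⟩
    exact iter_Orb (Cp_sub_Orb F y ε hw) n
  have h3 := sub_Cp h1 h2 ⟨z, hz, rfl⟩ hz'
  intro w hw
  exact h3 ⟨w, hw, rfl⟩

/-- `n` is the period of the component -/
def IsPer (F : ℝ → ℝ) (y ε : ℝ) (n : ℕ) : Prop :=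
  1 ≤ n ∧ (∃ z ∈ Cp F y ε, F^[n] z ∈ Cp F y ε) ∧
    ∀ k, 1 ≤ k → k < n → ∀ z ∈ Cp F y ε, F^[k] z ∉ Cp F y ε

theorem exists_per {F : ℝ → ℝ} {y ε : ℝ} {n : ℕ} (hn : 1 ≤ n) {z : ℝ} (hz : z ∈ Cp F y ε)
    (hz' : F^[n] z ∈ Cp F y ε) : ∃ m, IsPer F y ε m ∧ m ≤ n := by
  classical
  have hex : ∃ n, 1 ≤ n ∧ ∃ z ∈ Cp F y ε, F^[n] z ∈ Cp F y ε := ⟨n, hn, z, hz, hz'⟩
  refine ⟨Nat.find hex, ⟨(Nat.find_spec hex).1, (Nat.find_spec hex).2, ?_⟩,
    Nat.find_min' hex ⟨hn, z, hz, hz'⟩⟩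
  intro k hk1 hk2 w hw hw'
  exact Nat.find_min hex hk2 ⟨hk1, w, hw, hw'⟩

theorem per_mapsTo {F : ℝ → ℝ} (hF : Continuous F) {y ε : ℝ} {n : ℕ} (h : IsPer F y ε n) (t : ℕ) :
    MapsTo F^[t * n] (Cp F y ε) (Cp F y ε) := by
  obtain ⟨-, ⟨z, hz, hz'⟩, -⟩ := h
  have h1 := mapsTo_of_inter hF hz hz'
  induction t with
  | zero => simpa using mapsTo_id _
  | succ t ih =>
    intro w hw
    rw [show (t + 1) * n = t * n + n by ring, iterate_add_apply]
    exact ih (h1 hw)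

theorem per_dvd {F : ℝ → ℝ} (hF : Continuous F) {y ε : ℝ} {n : ℕ} (h : IsPer F y ε n) {k : ℕ}
    {z : ℝ} (hz : z ∈ Cp F y ε) (hz' : F^[k] z ∈ Cp F y ε) : n ∣ k := by
  have h1 := per_mapsTo hF h (k / n) hz
  have hn : 0 < n := h.1
  have hk : k % n + (k / n) * n = k := by
    have := Nat.div_add_mod k n
    rw [mul_comm] at this
    omega
  by_contra hnd
  have hk0 : 1 ≤ k % n := by
    rcases Nat.eq_zero_or_pos (k % n) with h0 | h0
    · exact absurd (Nat.dvd_of_mod_eq_zero h0) hnd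
    · exact h0
  refine h.2.2 (k % n) hk0 (Nat.mod_lt _ hn) _ h1 ?_
  rw [← iterate_add_apply, hk]
  exact hz'

theorem per_dvd2 {F : ℝ → ℝ} (hF : Continuous F) {y ε : ℝ} {n : ℕ} (h : IsPer F y ε n) {l a : ℕ}
    {z z' : ℝ} (hz : z ∈ Cp F y ε) (hz' : z' ∈ Cp F y ε) (he : F^[l + a] z = F^[l] z') :
    n ∣ a := by
  have hn : 1 ≤ n := h.1
  have e1 : F^[l * (n - 1)] (F^[l + a] z) = F^[l * (n - 1)] (F^[l] z') := by rw [he]
  rw [← iterate_add_apply, ← iterate_add_apply] at e1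
  have e2 : l * (n - 1) + l = l * n := by
    obtain ⟨m, rfl⟩ : ∃ m, n = m + 1 := ⟨n - 1, by omega⟩
    simp only [Nat.add_sub_cancel]
    ring
  rw [e2] at e1
  have h1 : F^[l * (n - 1) + (l + a)] z ∈ Cp F y ε := by
    rw [e1]
    exact per_mapsTo hF h l hz'
  have h2 := per_dvd hF h hz h1
  rw [← add_assoc, e2] at h2
  exact (Nat.dvd_add_right (dvd_mul_left n l)).1 h2

theorem per_key {F : ℝ → ℝ} (hF : Continuous F) {y ε : ℝ} (hε : 0 < ε) {n : ℕ}
    (h : IsPer F y ε n) {l t : ℕ} {c v x : ℝ} (hc : c ∈ Cp F y ε) (hcx : F^[l] c = x)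
    (hv : v ∈ Orb F (Ioo y (y + ε))) (hvx : F^[l + t * n] v = x) : v ∈ Cp F y ε := by
  obtain ⟨a, s, hs, rfl⟩ := hv
  rw [← iterate_add_apply, ← hcx, add_assoc] at hvx
  have h1 := per_dvd2 hF h (U_sub_Cp F hε hs) hc hvx
  have h2 : n ∣ a := (Nat.dvd_add_right (dvd_mul_left n t)).1 h1
  obtain ⟨b, rfl⟩ := h2
  rw [mul_comm]
  exact per_mapsTo hF h b (U_sub_Cp F hε hs)

end Pool.Agent.Lib.MP_2df7e1_an
end

section

/-!
# Points approached from the right by backward branches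
-/

namespace Pool.Agent.Lib.MP_2df7e1_an

open Filter Topology Set Function

/-- `y` is approached from the right by backward branches of `x`. -/
def Appr (F : ℝ → ℝ) (x y : ℝ) : Prop :=
  ∀ ε > 0, ∃ u, IsBranch F x u ∧ ∀ N : ℕ, ∃ n ≥ N, u n ∈ Ioo y (y + ε)

theorem Appr.orb {F : ℝ → ℝ} {x y : ℝ} (H : Appr F x y) {ε : ℝ} (hε : 0 < ε) :
    ∃ u, IsBranch F x u ∧ (∀ j, u j ∈ Orb F (Ioo y (y + ε))) ∧
      ∀ N : ℕ, ∃ n ≥ N, u n ∈ Ioo y (y + ε) := by
  obtain ⟨u, hu, h⟩ := H ε hε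
  refine ⟨u, hu, fun j => ?_, h⟩
  obtain ⟨n, hn, hn'⟩ := h j
  exact ⟨n - j, u n, hn', hu.iter' hn⟩

theorem Appr.per {F : ℝ → ℝ} {x y : ℝ} (H : Appr F x y) {ε : ℝ} (hε : 0 < ε) :
    ∃ n, IsPer F y ε n := by
  obtain ⟨u, hu, -, h⟩ := H.orb hε
  obtain ⟨n₁, -, h₁⟩ := h 0
  obtain ⟨n₂, h12, h₂⟩ := h (n₁ + 1)
  have h3 : F^[n₂ - n₁] (u n₂) = u n₁ := hu.iter' (by omega)
  obtain ⟨m, hm, -⟩ := exists_per (F := F) (y := y) (ε := ε) (n := n₂ - n₁) (by omega)
    (U_sub_Cp F hε h₂) (by rw [h3]; exact U_sub_Cp F hε h₁)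
  exact ⟨m, hm⟩

theorem cont_eps {g : ℝ → ℝ} (hg : Continuous g) (a : ℝ) {κ : ℝ} (hκ : 0 < κ) :
    ∃ η > 0, ∀ q, |q - a| < η → |g q - g a| < κ := by
  obtain ⟨η, hη, h⟩ := Metric.continuousAt_iff.1 (hg.continuousAt (x := a)) κ hκ
  refine ⟨η, hη, fun q hq => ?_⟩
  have := h (x := q) (by rwa [Real.dist_eq])
  rwa [Real.dist_eq] at this

theorem branch_mem {F : ℝ → ℝ} (hR : ∀ t, F t ∈ Icc (0 : ℝ) 1) {x : ℝ} {u : ℕ → ℝ}
    (hu : IsBranch F x u) (n : ℕ) : u n ∈ Icc (0 : ℝ) 1 := by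
  rw [← hu.2 n]
  exact hR _

/-- Case 1: the components do not shrink on the right. -/
theorem case_one {F : ℝ → ℝ} {x y : ℝ} (H : Appr F x y) {w₀ : ℝ} (hw₀ : y < w₀)
    (hw : ∀ ε > 0, w₀ ∈ Cp F y ε) : y ∈ sAlpha F x := by
  obtain ⟨u, hu, h⟩ := H (w₀ - y) (by linarith)
  obtain ⟨k, -, hk⟩ := h 0
  rw [show y + (w₀ - y) = w₀ by ring] at hk
  have hkx : F^[k] (u k) = x := by
    have := hu.iter 0 k
    rw [zero_add] at this
    rw [this, hu.1]
  refine chain (Ioo y w₀) hk hkx ?_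
  intro z hz ε' hε'
  have hε : 0 < min ε' (z - y) := lt_min hε' (by linarith [hz.1])
  have hzC : z ∈ Cp F y (min ε' (z - y)) := by
    refine Cp_ord F y _ (U_sub_Cp F hε (mid_mem hε)) (hw _ hε) ?_ hz.2.le
    have : min ε' (z - y) ≤ z - y := min_le_right _ _
    linarith [hz.1]
  obtain ⟨n, s, hs, hns⟩ := Cp_sub_Orb F y _ hzC
  have hs2 : s < z := by
    have : min ε' (z - y) ≤ z - y := min_le_right _ _
    linarith [hs.2]
  refine ⟨s, ⟨hs.1, hs2.trans hz.2⟩, n, ?_, 0, Nat.zero_le _, hns, ?_⟩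
  · rcases Nat.eq_zero_or_pos n with h0 | h0
    · subst h0
      exact absurd hns hs2.ne
    · exact h0
  · show |s - y| < ε'
    have : min ε' (z - y) ≤ ε' := min_le_left _ _
    rw [abs_lt]
    constructor <;> linarith [hs.1, hs.2]

/-- Case 2: the components shrink to the point `y`. -/
theorem case_two {F : ℝ → ℝ} (hF : Continuous F) (hR : ∀ t, F t ∈ Icc (0 : ℝ) 1) {x y : ℝ}
    (H : Appr F x y) (hsmall : ∀ δ > 0, ∃ ε > 0, ∀ z ∈ Cp F y ε, |z - y| < δ) :
    y ∈ sAlpha F x := by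
  have hpos : ∀ k : ℕ, (0 : ℝ) < 1 / ((k : ℝ) + 1) := fun k => by positivity
  choose U hU hUO _ using fun k : ℕ => H.orb (hpos k)
  have hcpt : IsCompact (Set.pi univ (fun _ : ℕ => Icc (0 : ℝ) 1)) :=
    isCompact_univ_pi fun _ => isCompact_Icc
  obtain ⟨v, -, φ, hφ, hlim⟩ := hcpt.tendsto_subseq
    (fun k => (fun j _ => branch_mem hR (hU k) j : U k ∈ Set.pi univ (fun _ : ℕ => Icc (0 : ℝ) 1)))
  rw [tendsto_pi_nhds] at hlim
  have hv : IsBranch F x v := by
    constructor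
    · refine tendsto_nhds_unique (hlim 0) ?_
      have : (fun k => (U ∘ φ) k 0) = fun _ => x := by
        funext k
        exact (hU (φ k)).1
      rw [this]
      exact tendsto_const_nhds
    · intro n
      refine tendsto_nhds_unique ((hF.tendsto _).comp (hlim (n + 1))) ?_
      have : F ∘ (fun k => (U ∘ φ) k (n + 1)) = fun k => (U ∘ φ) k n := by
        funext k
        exact (hU (φ k)).2 n
      rw [this]
      exact hlim n
  rw [mem_sAlpha_iff]
  refine ⟨v, hv, fun δ hδ N => ?_⟩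
  obtain ⟨ε, hε, hεC⟩ := hsmall (δ / 2) (by linarith)
  obtain ⟨n, hn⟩ := H.per hε
  obtain ⟨u, hu, -, h⟩ := H.orb hε
  obtain ⟨j₀, -, hj₀⟩ := h 0
  have hj₀x : F^[j₀] (u j₀) = x := by
    have := hu.iter 0 j₀
    rw [zero_add] at this
    rw [this, hu.1]
  refine ⟨j₀ + N * n, ?_, ?_⟩
  · have := hn.1
    nlinarith [Nat.zero_le j₀]
  · have hev : ∀ᶠ k in atTop, |(U ∘ φ) k (j₀ + N * n) - y| ≤ δ / 2 := by
      obtain ⟨k₀, hk₀⟩ := exists_nat_one_div_lt hε
      filter_upwards [eventually_ge_atTop k₀] with k hk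
      have hφk : k₀ ≤ φ k := hk.trans (hφ.id_le k)
      have hle : 1 / ((φ k : ℝ) + 1) ≤ ε := by
        refine le_trans ?_ hk₀.le
        apply one_div_le_one_div_of_le (by positivity)
        have : (k₀ : ℝ) ≤ φ k := by exact_mod_cast hφk
        linarith
      have hO : U (φ k) (j₀ + N * n) ∈ Orb F (Ioo y (y + ε)) :=
        Orb_mono F (Ioo_subset_Ioo_right (by linarith)) (hUO (φ k) _)
      have hx : F^[j₀ + N * n] (U (φ k) (j₀ + N * n)) = x := by
        have := (hU (φ k)).iter 0 (j₀ + N * n)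
        rw [zero_add] at this
        rw [this, (hU (φ k)).1]
      have hC := per_key hF hε hn (U_sub_Cp F hε hj₀) hj₀x hO hx
      exact (hεC _ hC).le
    have hlim' : Tendsto (fun k => |(U ∘ φ) k (j₀ + N * n) - y|) atTop
        (𝓝 |v (j₀ + N * n) - y|) := ((hlim (j₀ + N * n)).sub_const y).abs
    have := le_of_tendsto hlim' hev
    linarith

/-- Case 3: the components contain a nondegenerate interval to the left of `y`, and shrink on the
right. -/
theorem case_three {F : ℝ → ℝ} (hF : Continuous F) (hR : ∀ t, F t ∈ Icc (0 : ℝ) 1)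
    (hNW : ∀ a b : ℝ, 0 ≤ a → a < b → b ≤ 1 → ∃ i j : ℕ, i < j ∧ ∃ s ∈ Ioo a b, ∃ t ∈ Ioo a b,
      F^[i] s = F^[j] t) {x y : ℝ} (H : Appr F x y)
    (hup : ∀ δ > 0, ∃ ε > 0, ∀ z ∈ Cp F y ε, z < y + δ) {a : ℝ} (hay : a < y)
    (ha : ∀ ε > 0, a ∈ Cp F y ε) : y ∈ sAlpha F x := by
  -- the left endpoint of the intersection
  let A : Set ℝ := {a | a < y ∧ ∀ ε > 0, a ∈ Cp F y ε}
  have hA0 : ∀ b ∈ A, 0 ≤ b := by
    rintro b ⟨hb, hb'⟩
    obtain ⟨n, s, hs, hns⟩ := Cp_sub_Orb F y 1 (hb' 1 one_pos)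
    rcases Nat.eq_zero_or_pos n with h0 | h0
    · subst h0
      have : s = b := hns
      linarith [hs.1]
    · obtain ⟨m, rfl⟩ : ∃ m, n = m + 1 := ⟨n - 1, by omega⟩
      rw [iterate_succ_apply'] at hns
      rw [← hns]
      exact (hR _).1
  have hAne : A.Nonempty := ⟨a, hay, ha⟩
  have hAbdd : BddBelow A := ⟨0, fun b hb => hA0 b hb⟩
  obtain ⟨a₀, ha₀⟩ : ∃ a₀, a₀ = sInf A := ⟨_, rfl⟩
  have ha₀y : a₀ < y := by
    rw [ha₀]
    exact lt_of_le_of_lt (csInf_le hAbdd ⟨hay, ha⟩) hay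
  have ha₀0 : 0 ≤ a₀ := by
    rw [ha₀]
    exact le_csInf hAne fun b hb => hA0 b hb
  have hJ : ∀ z ∈ Ioo a₀ y, ∀ ε > 0, z ∈ Cp F y ε := by
    intro z hz ε hε
    have hz1 : sInf A < z := by rw [← ha₀]; exact hz.1
    obtain ⟨b, hb, hbz⟩ := exists_lt_of_csInf_lt hAne hz1
    have hmid := mid_mem (y := y) hε
    exact Cp_ord F y ε (hb.2 ε hε) (U_sub_Cp F hε hmid) hbz.le (by linarith [hz.2, hmid.1])
  have hlow : ∀ δ > 0, ∃ ε > 0, ∀ z ∈ Cp F y ε, a₀ - δ < z := by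
    intro δ hδ
    by_contra hcon
    push Not at hcon
    have hmem : a₀ - δ ∈ A := by
      refine ⟨by linarith, fun ε hε => ?_⟩
      obtain ⟨z, hz, hz'⟩ := hcon ε hε
      have hmid := mid_mem (y := y) hε
      exact Cp_ord F y ε hz (U_sub_Cp F hε hmid) hz' (by linarith [hmid.1])
    have := csInf_le hAbdd hmem
    rw [← ha₀] at this
    linarith
  have hbox : ∀ δ > 0, ∃ ε₀ > 0, ∀ ε, 0 < ε → ε ≤ ε₀ → ∀ z ∈ Cp F y ε, a₀ - δ < z ∧ z < y + δ := by
    intro δ hδ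
    obtain ⟨e1, he1, h1⟩ := hup δ hδ
    obtain ⟨e2, he2, h2⟩ := hlow δ hδ
    refine ⟨min e1 e2, lt_min he1 he2, fun ε hε hle z hz => ⟨?_, ?_⟩⟩
    · exact h2 z (Cp_mono F hε (hle.trans (min_le_right _ _)) hz)
    · exact h1 z (Cp_mono F hε (hle.trans (min_le_left _ _)) hz)
  have hy1 : y ≤ 1 := by
    obtain ⟨u, hu, h⟩ := H 1 one_pos
    obtain ⟨k, -, hk⟩ := h 0
    have := (branch_mem hR hu k).2
    linarith [hk.1]
  -- constant period
  obtain ⟨n, ε₁, hε₁, hper⟩ : ∃ n : ℕ, ∃ ε₁ > 0, ∀ ε, 0 < ε → ε ≤ ε₁ → IsPer F y ε n := by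
    obtain ⟨i, j, hij, s, hs, t, ht, hst⟩ := hNW a₀ y ha₀0 ha₀y hy1
    have hbd : ∀ m, (∃ ε > 0, IsPer F y ε m) → m ≤ j - i := by
      rintro m ⟨ε, hε, hm⟩
      have h1 : F^[i + (j - i)] t = F^[i] s := by
        rw [show i + (j - i) = j by omega, hst]
      have h2 := per_dvd2 hF hm (hJ t ht ε hε) (hJ s hs ε hε) h1
      exact Nat.le_of_dvd (by omega) h2
    have hne : {m | ∃ ε > 0, IsPer F y ε m}.Nonempty := by
      obtain ⟨m, hm⟩ := H.per one_pos
      exact ⟨m, 1, one_pos, hm⟩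
    have hbdd : BddAbove {m | ∃ ε > 0, IsPer F y ε m} := ⟨j - i, fun m hm => hbd m hm⟩
    have hM := Nat.sSup_mem hne hbdd
    obtain ⟨ε₁, hε₁, hM1⟩ := hM
    refine ⟨sSup {m | ∃ ε > 0, IsPer F y ε m}, ε₁, hε₁, fun ε hε hle => ?_⟩
    obtain ⟨m, hm⟩ := H.per hε
    have h1 : m ≤ sSup {m | ∃ ε > 0, IsPer F y ε m} := le_csSup hbdd ⟨ε, hε, hm⟩
    have h2 : ¬ m < sSup {m | ∃ ε > 0, IsPer F y ε m} := by
      intro hlt
      obtain ⟨hm1, ⟨z, hz, hz'⟩, -⟩ := hm
      exact hM1.2.2 m hm1 hlt z (Cp_mono F hε hle hz) (Cp_mono F hε hle hz')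
    have h3 : m = sSup {m | ∃ ε > 0, IsPer F y ε m} := le_antisymm h1 (not_lt.1 h2)
    rw [← h3]
    exact hm
  have hn1 : 1 ≤ n := (hper ε₁ hε₁ le_rfl).1
  obtain ⟨g, hg⟩ : ∃ g, g = F^[n] := ⟨_, rfl⟩
  have hgc : Continuous g := by rw [hg]; exact hF.iterate n
  have hgt : ∀ t, g^[t] = F^[t * n] := by
    intro t
    rw [hg, ← iterate_mul, mul_comm]
  have hgC : ∀ ε, 0 < ε → ε ≤ ε₁ → ∀ t z, z ∈ Cp F y ε → g^[t] z ∈ Cp F y ε := by
    intro ε hε hle t z hz
    rw [hgt]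
    exact per_mapsTo hF (hper ε hε hle) t hz
  -- `g` maps `[a₀, y]` into itself
  have hgJ : ∀ z ∈ Icc a₀ y, g z ∈ Icc a₀ y := by
    have hδ : ∀ δ > 0, ∀ z ∈ Icc a₀ y, g z ∈ Icc (a₀ - δ) (y + δ) := by
      intro δ hδ z hz
      obtain ⟨e, he, hbe⟩ := hbox δ hδ
      have hmaps : MapsTo g (Ioo a₀ y) (Icc (a₀ - δ) (y + δ)) := by
        intro w hw
        have hpos : 0 < min e ε₁ := lt_min he hε₁
        have h1 := hgC _ hpos (min_le_right _ _) 1 w (hJ w hw _ hpos)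
        have h2 := hbe _ hpos (min_le_left _ _) _ h1
        exact ⟨h2.1.le, h2.2.le⟩
      have h3 := hmaps.closure hgc
      rw [closure_Ioo ha₀y.ne, closure_Icc] at h3
      exact h3 hz
    intro z hz
    constructor
    · refine le_of_forall_pos_le_add fun δ hδ' => ?_
      have := (hδ δ hδ' z hz).1
      linarith
    · refine le_of_forall_pos_le_add fun δ hδ' => ?_
      exact (hδ δ hδ' z hz).2
  -- points `q`, `r`
  have hqr : ∀ ε, 0 < ε → ε ≤ ε₁ → ∃ q r, q ∈ Cp F y ε ∧ r ∈ Cp F y ε ∧ g r = q ∧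
      y < g q ∧ g q < y + ε := by
    intro ε hε hle
    obtain ⟨u, hu, huO, h⟩ := H.orb hε
    obtain ⟨k, -, hk⟩ := h 0
    have hkx : ∀ m, F^[m] (u m) = x := by
      intro m
      have := hu.iter 0 m
      rw [zero_add] at this
      rw [this, hu.1]
    have hkC := U_sub_Cp F hε hk
    refine ⟨u (k + 1 * n), u (k + 2 * n), ?_, ?_, ?_, ?_⟩
    · exact per_key hF hε (hper ε hε hle) hkC (hkx k) (huO _) (hkx _)
    · exact per_key hF hε (hper ε hε hle) hkC (hkx k) (huO _) (hkx _)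
    · rw [hg, show k + 2 * n = (k + 1 * n) + n by ring]
      exact hu.iter _ _
    · rw [hg, one_mul, hu.iter]
      exact hk
  -- the endpoint `y` is periodic of period at most two
  have hP : g y = y ∨ (g y = a₀ ∧ g a₀ = y) := by
    by_cases h1 : g y = y
    · exact Or.inl h1
    right
    have hκ : 0 < |g y - y| := abs_pos.2 (sub_ne_zero.2 h1)
    obtain ⟨η, hη, hηy⟩ := cont_eps hgc y (κ := |g y - y| / 2) (by linarith)
    -- location of `q`
    have hq : ∀ δ > 0, ∃ e₀ > 0, ∀ ε, 0 < ε → ε ≤ e₀ → ε ≤ ε₁ → ∀ q, q ∈ Cp F y ε → y < g q →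
        g q < y + ε → a₀ - δ < q ∧ q < a₀ := by
      intro δ hδ
      obtain ⟨e, he, hbe⟩ := hbox (min δ η) (lt_min hδ hη)
      refine ⟨min e (|g y - y| / 2), lt_min he (by linarith), fun ε hε hle hle1 q hqC hq1 hq2 => ?_⟩
      have hb := hbe ε hε (hle.trans (min_le_left _ _)) q hqC
      have hle2 : ε ≤ |g y - y| / 2 := hle.trans (min_le_right _ _)
      have hm1 : min δ η ≤ δ := min_le_left _ _
      have hm2 : min δ η ≤ η := min_le_right _ _
      refine ⟨by linarith [hb.1], ?_⟩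
      by_contra hqa
      rw [not_lt] at hqa
      have hqy : y < q := by
        by_contra hqy
        rw [not_lt] at hqy
        have := (hgJ q ⟨hqa, hqy⟩).2
        linarith
      have h3 := hηy q (by rw [abs_lt]; constructor <;> linarith [hb.2])
      have h4 : |g y - y| ≤ |g q - g y| + |g q - y| := by
        have := abs_sub_le (g y) (g q) y
        rw [abs_sub_comm (g y) (g q)] at this
        exact this
      have h5 : |g q - y| < ε := by rw [abs_lt]; constructor <;> linarith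
      linarith
    have h2 : g a₀ = y := by
      by_contra h2
      have hκ2 : 0 < |g a₀ - y| := abs_pos.2 (sub_ne_zero.2 h2)
      obtain ⟨η2, hη2, hηa⟩ := cont_eps hgc a₀ (κ := |g a₀ - y| / 2) (by linarith)
      obtain ⟨e, he, hqe⟩ := hq η2 hη2
      have hpos : 0 < min (min e ε₁) (|g a₀ - y| / 2) := lt_min (lt_min he hε₁) (by linarith)
      have hl1 : min (min e ε₁) (|g a₀ - y| / 2) ≤ e := (min_le_left _ _).trans (min_le_left _ _)
      have hl2 : min (min e ε₁) (|g a₀ - y| / 2) ≤ ε₁ := (min_le_left _ _).trans (min_le_right _ _)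
      have hl3 : min (min e ε₁) (|g a₀ - y| / 2) ≤ |g a₀ - y| / 2 := min_le_right _ _
      obtain ⟨q, r, hqC, -, -, hq1, hq2⟩ := hqr _ hpos hl2
      have h3 := hqe _ hpos hl1 hl2 q hqC hq1 hq2
      have h4 := hηa q (by rw [abs_lt]; constructor <;> linarith [h3.1, h3.2])
      have h5 : |g a₀ - y| ≤ |g q - g a₀| + |g q - y| := by
        have := abs_sub_le (g a₀) (g q) y
        rw [abs_sub_comm (g a₀) (g q)] at this
        exact this
      have h6 : |g q - y| < |g a₀ - y| / 2 := by rw [abs_lt]; constructor <;> linarith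
      linarith
    refine ⟨?_, h2⟩
    by_contra h3
    have hκ3 : 0 < |g y - a₀| := abs_pos.2 (sub_ne_zero.2 h3)
    obtain ⟨η3, hη3, hηy3⟩ := cont_eps hgc y (κ := |g y - a₀| / 2) (by linarith)
    obtain ⟨η4, hη4, hηa4⟩ := cont_eps hgc a₀ (κ := (y - a₀) / 2) (by linarith)
    obtain ⟨e, he, hqe⟩ := hq (min (|g y - a₀| / 2) ((y - a₀) / 2)) (lt_min (by linarith)
      (by linarith))
    obtain ⟨e', he', hbe⟩ := hbox (min η3 η4) (lt_min hη3 hη4)
    have hpos : 0 < min (min e ε₁) e' := lt_min (lt_min he hε₁) he'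
    have hl1 : min (min e ε₁) e' ≤ e := (min_le_left _ _).trans (min_le_left _ _)
    have hl2 : min (min e ε₁) e' ≤ ε₁ := (min_le_left _ _).trans (min_le_right _ _)
    have hl3 : min (min e ε₁) e' ≤ e' := min_le_right _ _
    obtain ⟨q, r, hqC, hrC, hrq, hq1, hq2⟩ := hqr _ hpos hl2
    have h4 := hqe _ hpos hl1 hl2 q hqC hq1 hq2
    have hm1 : min (|g y - a₀| / 2) ((y - a₀) / 2) ≤ |g y - a₀| / 2 := min_le_left _ _
    have hm2 : min (|g y - a₀| / 2) ((y - a₀) / 2) ≤ (y - a₀) / 2 := min_le_right _ _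
    have hm3 : min η3 η4 ≤ η3 := min_le_left _ _
    have hm4 : min η3 η4 ≤ η4 := min_le_right _ _
    have hb := hbe _ hpos hl3 r hrC
    have hr : r ∉ Icc a₀ y := by
      intro hr
      have := (hgJ r hr).1
      rw [hrq] at this
      linarith [h4.2]
    have hqa : |q - a₀| < min (|g y - a₀| / 2) ((y - a₀) / 2) := by
      rw [abs_lt]; constructor <;> linarith [h4.1, h4.2]
    rcases lt_or_ge r a₀ with hra | hra
    · have h5 := hηa4 r (by rw [abs_lt]; constructor <;> linarith [hb.1])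
      rw [hrq, h2] at h5
      have h6 : y - a₀ ≤ |q - y| + |q - a₀| := by
        have h7 := neg_abs_le (q - y)
        have h8 := le_abs_self (q - a₀)
        linarith
      linarith
    · have hry : y < r := by
        by_contra hry
        exact hr ⟨hra, not_lt.1 hry⟩
      have h5 := hηy3 r (by rw [abs_lt]; constructor <;> linarith [hb.2])
      rw [hrq] at h5
      have h6 : |g y - a₀| ≤ |q - g y| + |q - a₀| := by
        have := abs_sub_le (g y) q a₀
        rw [abs_sub_comm (g y) q] at this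
        exact this
      linarith
  -- the set `P`
  obtain ⟨P, hPdef⟩ : ∃ P : Set ℝ, P = {y, g y} := ⟨_, rfl⟩
  have hyP : y ∈ P := by rw [hPdef]; exact Or.inl rfl
  have hPfin : P.Finite := by rw [hPdef]; exact (finite_singleton _).insert _
  have hP1 : ∀ p ∈ P, g p ∈ P := by
    rw [hPdef]
    rintro p (rfl | hp)
    · exact Or.inr rfl
    · have hp' : p = g y := hp
      rcases hP with h | ⟨h, h'⟩
      · rw [hp', h, h]; exact Or.inl rfl
      · rw [hp', h, h']; exact Or.inl rfl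
  have hP2 : ∀ p ∈ P, p = y ∨ g p = y := by
    rw [hPdef]
    rintro p (rfl | hp)
    · exact Or.inl rfl
    · have hp' : p = g y := hp
      rcases hP with h | ⟨h, h'⟩
      · left; rw [hp', h]
      · right; rw [hp', h, h']
  have hP3 : ∀ p ∈ P, p = y ∨ p = a₀ := by
    rw [hPdef]
    rintro p (rfl | hp)
    · exact Or.inl rfl
    · have hp' : p = g y := hp
      rcases hP with h | ⟨h, h'⟩
      · left; rw [hp', h]
      · right; rw [hp', h]
  have hP4 : ∀ p ∈ P, g (g p) = p := by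
    rw [hPdef]
    rintro p (rfl | hp)
    · rcases hP with h | ⟨h, h'⟩
      · rw [h, h]
      · rw [h, h']
    · have hp' : p = g y := hp
      rcases hP with h | ⟨h, h'⟩
      · rw [hp', h, h, h]
      · rw [hp', h, h', h]
  -- uniform continuity on the finite set `P`
  have hPcont : ∀ δ > 0, ∃ η > 0, ∀ p ∈ P, ∀ w, |w - p| < η → |g w - g p| < δ := by
    intro δ hδ
    obtain ⟨η1, h1, h1'⟩ := cont_eps hgc y hδ
    obtain ⟨η2, h2, h2'⟩ := cont_eps hgc (g y) hδ
    refine ⟨min η1 η2, lt_min h1 h2, ?_⟩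
    rw [hPdef]
    rintro p (rfl | hp) w hw
    · exact h1' w (lt_of_lt_of_le hw (min_le_left _ _))
    · have hp' : p = g y := hp
      rw [hp'] at hw ⊢
      exact h2' w (lt_of_lt_of_le hw (min_le_right _ _))
  -- escaping from the neighbourhood of `P`
  have hEsc : ∀ δ, 0 < δ → δ ≤ y - a₀ → ∃ e₀ > 0, ∀ ε, 0 < ε → ε ≤ e₀ → ε ≤ ε₁ →
      ∀ u ∈ Ioo y (y + ε), ∀ t, (∀ p ∈ P, δ ≤ |g^[t] u - p|) →
      ∃ i < t, g^[i] u ∈ Ioo a₀ y ∧ ∃ p ∈ P, |g^[i] u - p| < δ := by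
    intro δ hδ hδ2
    obtain ⟨η', hη', hcont⟩ := hPcont δ hδ
    have hηpos : 0 < min η' δ := lt_min hη' hδ
    obtain ⟨e, he, hbe⟩ := hbox (min η' δ) hηpos
    refine ⟨min e (min η' δ), lt_min he hηpos, fun ε hε hle hle1 u hu t ht => ?_⟩
    have hεη : ε ≤ min η' δ := hle.trans (min_le_right _ _)
    have hηδ : min η' δ ≤ δ := min_le_right _ _
    have hηη : min η' δ ≤ η' := min_le_left _ _
    classical
    have hex : ∃ j, ∀ p ∈ P, δ ≤ |g^[j] u - p| := ⟨t, ht⟩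
    have hj := Nat.find_spec hex
    have hjt : Nat.find hex ≤ t := Nat.find_min' hex ht
    have hj0 : Nat.find hex ≠ 0 := by
      intro h0
      rw [h0] at hj
      have h1 := hj y hyP
      have h2 : |g^[0] u - y| < δ := by
        show |u - y| < δ
        rw [abs_lt]; constructor <;> linarith [hu.1, hu.2]
      linarith
    obtain ⟨i, hi⟩ : ∃ i, Nat.find hex = i + 1 := ⟨Nat.find hex - 1, by omega⟩
    have hQi : ∃ p ∈ P, |g^[i] u - p| < δ := by
      have := Nat.find_min hex (m := i) (by omega)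
      push Not at this
      exact this
    have hfar : ∀ p ∈ P, min η' δ ≤ |g^[i] u - p| := by
      intro p hp
      by_contra hcon
      rw [not_le] at hcon
      have h1 := hcont p hp (g^[i] u) (lt_of_lt_of_le hcon hηη)
      rw [hi] at hj
      have h2 := hj (g p) (hP1 p hp)
      rw [iterate_succ_apply'] at h2
      linarith
    have hw := hbe ε hε (hle.trans (min_le_left _ _)) _ (hgC ε hε hle1 i u (U_sub_Cp F hε hu))
    refine ⟨i, by omega, ⟨?_, ?_⟩, hQi⟩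
    · obtain ⟨p, hp, hp'⟩ := hQi
      rcases hP3 p hp with rfl | rfl
      · rw [abs_lt] at hp'
        linarith [hp'.1]
      · have h1 := hfar _ hp
        rcases le_abs.1 h1 with h2 | h2
        · linarith
        · linarith [hw.1]
    · have h1 := hfar y hyP
      rcases le_abs.1 h1 with h2 | h2
      · linarith [hw.2]
      · linarith
  -- the backward step inside the open interval
  have hstep : ∀ z ∈ Ioo a₀ y, ∀ ε' > 0, ∃ w ∈ Ioo a₀ y, ∃ k ≥ 1, ∃ m ≤ k, F^[k] w = z ∧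
      |F^[m] w - y| < ε' := by
    intro z hz ε' hε'
    obtain ⟨η, hη, hcont⟩ := hPcont ε' hε'
    obtain ⟨δ, hδ⟩ : ∃ δ, δ = min (min (y - z) (z - a₀)) (min ε' η) := ⟨_, rfl⟩
    have hδ0 : 0 < δ := by
      rw [hδ]
      exact lt_min (lt_min (by linarith [hz.2]) (by linarith [hz.1])) (lt_min hε' hη)
    have hδ1 : δ ≤ y - z := by rw [hδ]; exact (min_le_left _ _).trans (min_le_left _ _)
    have hδ2 : δ ≤ z - a₀ := by rw [hδ]; exact (min_le_left _ _).trans (min_le_right _ _)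
    have hδ3 : δ ≤ ε' := by rw [hδ]; exact (min_le_right _ _).trans (min_le_left _ _)
    have hδ4 : δ ≤ η := by rw [hδ]; exact (min_le_right _ _).trans (min_le_right _ _)
    obtain ⟨e, he, hesc⟩ := hEsc δ hδ0 (by linarith [hz.1])
    have hpos : 0 < min e ε₁ := lt_min he hε₁
    have hzC := hJ z hz _ hpos
    obtain ⟨k, u, hu, hku⟩ := Cp_sub_Orb F y _ hzC
    have hdvd : n ∣ k := per_dvd hF (hper _ hpos (min_le_right _ _)) (U_sub_Cp F hpos hu)
      (by rw [hku]; exact hzC)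
    obtain ⟨t, rfl⟩ := hdvd
    have hgtu : g^[t] u = z := by rw [hgt, mul_comm]; exact hku
    obtain ⟨i, hit, hi, p, hp, hip⟩ := hesc _ hpos (min_le_left _ _) (min_le_right _ _) u hu t (by
      intro p hp
      rw [hgtu]
      rcases hP3 p hp with rfl | rfl
      · rw [abs_of_neg (by linarith [hz.2])]; linarith
      · rw [abs_of_pos (by linarith [hz.1])]; linarith)
    refine ⟨g^[i] u, hi, (t - i) * n, ?_, ?_⟩
    · have : 1 ≤ t - i := by omega
      nlinarith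
    · have hback : F^[(t - i) * n] (g^[i] u) = z := by
        rw [← hgt, ← iterate_add_apply, show t - i + i = t by omega]
        exact hgtu
      rcases hP2 p hp with rfl | hgp
      · exact ⟨0, Nat.zero_le _, hback, lt_of_lt_of_le hip hδ3⟩
      · refine ⟨n, ?_, hback, ?_⟩
        · have : 1 ≤ t - i := by omega
          nlinarith
        · have h1 := hcont p hp _ (lt_of_lt_of_le hip hδ4)
          rw [hgp] at h1
          rw [← hg]
          exact h1
  by_cases hS : ∃ z₀ ∈ Ioo a₀ y, ∃ k₀, F^[k₀] z₀ = x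
  · obtain ⟨z₀, hz₀, k₀, hk₀⟩ := hS
    exact chain (Ioo a₀ y) hz₀ hk₀ hstep
  -- `x` is in the orbit of `P`
  have hPx : ∃ p ∈ P, ∃ k, F^[k] p = x := by
    by_contra hcon
    push Not at hcon
    have hnb : ∃ δ > 0, ∀ k < n, ∀ p ∈ P, ∀ s, |s - p| < δ → F^[k] s ≠ x := by
      have hev : ∀ k p, p ∈ P → ∃ δ > 0, ∀ s, |s - p| < δ → F^[k] s ≠ x := by
        intro k p hp
        have hopen : IsOpen {s | F^[k] s ≠ x} :=
          isOpen_ne.preimage (hF.iterate k)
        obtain ⟨δ, hδ, hb⟩ := Metric.isOpen_iff.1 hopen p (hcon p hp k)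
        exact ⟨δ, hδ, fun s hs => hb (by rwa [Metric.mem_ball, Real.dist_eq])⟩
      have hyy : ∀ p ∈ P, ∃ δ > 0, ∀ k < n, ∀ s, |s - p| < δ → F^[k] s ≠ x := by
        intro p hp
        have : ∀ N, ∃ δ > 0, ∀ k < N, ∀ s, |s - p| < δ → F^[k] s ≠ x := by
          intro N
          induction N with
          | zero => exact ⟨1, one_pos, fun k hk => absurd hk (Nat.not_lt_zero k)⟩
          | succ N ih =>
            obtain ⟨δ, hδ, h⟩ := ih
            obtain ⟨δ', hδ', h'⟩ := hev N p hp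
            refine ⟨min δ δ', lt_min hδ hδ', fun k hk s hs => ?_⟩
            rcases Nat.lt_succ_iff_lt_or_eq.1 hk with h1 | h1
            · exact h k h1 s (lt_of_lt_of_le hs (min_le_left _ _))
            · rw [h1]; exact h' s (lt_of_lt_of_le hs (min_le_right _ _))
        exact this n
      have hgyP : g y ∈ P := hP1 y hyP
      obtain ⟨δ, hδ, h⟩ := hyy y hyP
      obtain ⟨δ', hδ', h'⟩ := hyy (g y) hgyP
      refine ⟨min δ δ', lt_min hδ hδ', fun k hk p hp s hs => ?_⟩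
      rw [hPdef] at hp
      rcases hp with rfl | hp
      · exact h k hk s (lt_of_lt_of_le hs (min_le_left _ _))
      · have hp' : p = g y := hp
        rw [hp'] at hs
        exact h' k hk s (lt_of_lt_of_le hs (min_le_right _ _))
    obtain ⟨δ', hδ', hnb⟩ := hnb
    obtain ⟨e, he, hesc⟩ := hEsc (min δ' (y - a₀)) (lt_min hδ' (by linarith)) (min_le_right _ _)
    have hpos : 0 < min e ε₁ := lt_min he hε₁
    obtain ⟨u, hu, -, h⟩ := H.orb hpos
    obtain ⟨K, -, hK⟩ := h 0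
    have hKx : ∀ m, F^[m] (u m) = x := by
      intro m
      have := hu.iter 0 m
      rw [zero_add] at this
      rw [this, hu.1]
    have hKn : K % n + (K / n) * n = K := by
      have := Nat.div_add_mod K n
      rw [mul_comm] at this
      omega
    have hs : g^[K / n] (u K) = u (K % n) := by
      rw [hgt]
      have := hu.iter (K % n) ((K / n) * n)
      rw [hKn] at this
      exact this
    obtain ⟨i, hit, hi, -⟩ := hesc _ hpos (min_le_left _ _) (min_le_right _ _) (u K) hK (K / n) (by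
      intro p hp
      by_contra hcon2
      rw [not_le, hs] at hcon2
      exact hnb (K % n) (Nat.mod_lt _ hn1) p hp _ (lt_of_lt_of_le hcon2 (min_le_left _ _))
        (hKx _))
    refine hS ⟨_, hi, K - i * n, ?_⟩
    have hiK : i * n ≤ K := by
      have : i * n ≤ (K / n) * n := Nat.mul_le_mul_right n hit.le
      omega
    rw [hgt, ← iterate_add_apply, show K - i * n + i * n = K by omega]
    exact hKx K
  obtain ⟨p, hp, k, hk⟩ := hPx
  refine chain P hp hk ?_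
  intro z hz ε' hε'
  refine ⟨g z, hP1 z hz, n, hn1, ?_⟩
  have hback : F^[n] (g z) = z := by rw [← hg]; exact hP4 z hz
  rcases hP2 (g z) (hP1 z hz) with h | h
  · refine ⟨0, Nat.zero_le _, hback, ?_⟩
    show |g z - y| < ε'
    rw [h, sub_self, abs_zero]
    exact hε'
  · refine ⟨n, le_rfl, hback, ?_⟩
    rw [← hg, h, sub_self, abs_zero]
    exact hε'

/-- If `F` has no wandering intervals, a point approached from the right by backward branches of
`x` lies in the special alpha-limit set. -/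
theorem right_mem {F : ℝ → ℝ} (hF : Continuous F) (hR : ∀ t, F t ∈ Icc (0 : ℝ) 1)
    (hNW : ∀ a b : ℝ, 0 ≤ a → a < b → b ≤ 1 → ∃ i j : ℕ, i < j ∧ ∃ s ∈ Ioo a b, ∃ t ∈ Ioo a b,
      F^[i] s = F^[j] t) {x y : ℝ} (H : Appr F x y) : y ∈ sAlpha F x := by
  by_cases h1 : ∃ w₀ > y, ∀ ε > 0, w₀ ∈ Cp F y ε
  · obtain ⟨w₀, hw₀, hw⟩ := h1
    exact case_one H hw₀ hw
  push Not at h1
  have hup : ∀ δ > 0, ∃ ε > 0, ∀ z ∈ Cp F y ε, z < y + δ := by
    intro δ hδ
    obtain ⟨ε, hε, hw⟩ := h1 (y + δ) (by linarith)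
    refine ⟨min ε δ, lt_min hε hδ, fun z hz => ?_⟩
    by_contra hcon
    rw [not_lt] at hcon
    have hpos : 0 < min ε δ := lt_min hε hδ
    have hmid := mid_mem (y := y) hpos
    have hle : min ε δ ≤ δ := min_le_right _ _
    have := Cp_ord F y _ (U_sub_Cp F hpos hmid) hz (by linarith [hmid.2]) hcon
    exact hw (Cp_mono F hpos (min_le_left _ _) this)
  by_cases h2 : ∃ a < y, ∀ ε > 0, a ∈ Cp F y ε
  · obtain ⟨a, hay, ha⟩ := h2
    exact case_three hF hR hNW H hup hay ha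
  push Not at h2
  refine case_two hF hR H fun δ hδ => ?_
  obtain ⟨e1, he1, h3⟩ := hup δ hδ
  obtain ⟨e2, he2, h4⟩ := h2 (y - δ) (by linarith)
  have hpos : 0 < min e1 e2 := lt_min he1 he2
  refine ⟨min e1 e2, hpos, fun z hz => ?_⟩
  rw [abs_lt]
  constructor
  · by_contra hcon
    rw [not_lt] at hcon
    have hmid := mid_mem (y := y) hpos
    have := Cp_ord F y _ hz (U_sub_Cp F hpos hmid) (c := y - δ) (by linarith)
      (by linarith [hmid.1])
    exact h4 (Cp_mono F hpos (min_le_right _ _) this)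
  · have := h3 z (Cp_mono F hpos (min_le_left _ _) hz)
    linarith

end Pool.Agent.Lib.MP_2df7e1_an
end

section

/-!
# Closed special alpha-limit sets for maps without wandering intervals
-/

namespace Pool.Agent.Lib.MP_2df7e1_an

open Filter Topology Set Function

/-- Every nondegenerate open interval of `[0,1]` has two overlapping iterates. -/
def NW (F : ℝ → ℝ) : Prop := ∀ a b : ℝ, 0 ≤ a → a < b → b ≤ 1 → ∃ i j : ℕ, i < j ∧
  ∃ s ∈ Ioo a b, ∃ t ∈ Ioo a b, F^[i] s = F^[j] t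

theorem appr_of_seq {F : ℝ → ℝ} {x y : ℝ} (h : ∀ ε > 0, ∃ z ∈ sAlpha F x, z ∈ Ioo y (y + ε)) :
    Appr F x y := by
  intro ε hε
  obtain ⟨z, hz, hzy⟩ := h ε hε
  rw [mem_sAlpha_iff] at hz
  obtain ⟨u, hu, h⟩ := hz
  refine ⟨u, hu, fun N => ?_⟩
  obtain ⟨n, hn, hn'⟩ := h (min (z - y) (y + ε - z))
    (lt_min (by linarith [hzy.1]) (by linarith [hzy.2])) N
  refine ⟨n, hn, ?_⟩
  rw [abs_lt] at hn'
  have h1 := min_le_left (z - y) (y + ε - z)
  have h2 := min_le_right (z - y) (y + ε - z)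
  constructor <;> linarith [hn'.1, hn'.2]

/-- the conjugate of `F` by the reflection `t ↦ 1 - t` -/
def rf (F : ℝ → ℝ) (t : ℝ) : ℝ := 1 - F (1 - t)

theorem rf_iter (F : ℝ → ℝ) (n : ℕ) (t : ℝ) : (rf F)^[n] t = 1 - F^[n] (1 - t) := by
  induction n generalizing t with
  | zero => simp
  | succ n ih =>
    rw [iterate_succ_apply, ih, iterate_succ_apply]
    simp [rf]

theorem rf_rf (F : ℝ → ℝ) : rf (rf F) = F := by
  funext t
  simp [rf]

theorem rf_sAlpha {F : ℝ → ℝ} {x y : ℝ} (h : y ∈ sAlpha F x) : 1 - y ∈ sAlpha (rf F) (1 - x) := by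
  obtain ⟨u, hu, k, hk, hlim⟩ := h
  refine ⟨fun n => 1 - u n, ⟨by simp [hu.1], fun n => by simp [rf, hu.2 n]⟩, k, hk, ?_⟩
  exact tendsto_const_nhds.sub hlim

theorem rf_sAlpha' {F : ℝ → ℝ} {x y : ℝ} (h : 1 - y ∈ sAlpha (rf F) (1 - x)) : y ∈ sAlpha F x := by
  have := rf_sAlpha h
  rwa [rf_rf, sub_sub_cancel, sub_sub_cancel] at this

theorem closed_sAlpha {F : ℝ → ℝ} (hF : Continuous F) (hR : ∀ t, F t ∈ Icc (0 : ℝ) 1)
    (hNW : NW F) (x : ℝ) : IsClosed (sAlpha F x) := by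
  apply isClosed_of_closure_subset
  intro y hy
  by_contra hcon
  rw [Metric.mem_closure_iff] at hy
  by_cases h1 : ∀ ε > 0, ∃ z ∈ sAlpha F x, z ∈ Ioo y (y + ε)
  · exact hcon (right_mem hF hR hNW (appr_of_seq h1))
  push Not at h1
  obtain ⟨ε₀, hε₀, h1⟩ := h1
  have h2 : ∀ ε > 0, ∃ z ∈ sAlpha (rf F) (1 - x), z ∈ Ioo (1 - y) (1 - y + ε) := by
    intro ε hε
    obtain ⟨z, hz, hzy⟩ := hy (min ε ε₀) (lt_min hε hε₀)
    rw [Real.dist_eq, abs_lt] at hzy
    have e1 := min_le_left ε ε₀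
    have e2 := min_le_right ε ε₀
    have hne : z ≠ y := by
      rintro rfl
      exact hcon hz
    have hlt : z < y := by
      rcases lt_or_gt_of_ne hne with h | h
      · exact h
      · exact absurd ⟨h, by linarith [hzy.1]⟩ (h1 z hz)
    refine ⟨1 - z, rf_sAlpha hz, by linarith, by linarith [hzy.2]⟩
  refine hcon (rf_sAlpha' (right_mem ?_ ?_ ?_ (appr_of_seq h2)))
  · unfold rf
    fun_prop
  · intro t
    have := hR (1 - t)
    unfold rf
    constructor <;> linarith [this.1, this.2]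
  · intro a b ha hab hb
    obtain ⟨i, j, hij, s, hs, t, ht, hst⟩ := hNW (1 - b) (1 - a) (by linarith) (by linarith)
      (by linarith)
    refine ⟨i, j, hij, 1 - s, ⟨by linarith [hs.2], by linarith [hs.1]⟩, 1 - t,
      ⟨by linarith [ht.2], by linarith [ht.1]⟩, ?_⟩
    rw [rf_iter, rf_iter, sub_sub_cancel, sub_sub_cancel, hst]

/-- the extension of an interval map to the line -/
noncomputable def ext (f : C(unitInterval, unitInterval)) (t : ℝ) : ℝ :=
  (f (projIcc 0 1 zero_le_one t) : ℝ)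

theorem ext_cont (f : C(unitInterval, unitInterval)) : Continuous (ext f) :=
  continuous_subtype_val.comp (f.continuous.comp continuous_projIcc)

theorem ext_mem (f : C(unitInterval, unitInterval)) (t : ℝ) : ext f t ∈ Icc (0 : ℝ) 1 :=
  (f (projIcc 0 1 zero_le_one t)).2

theorem ext_coe (f : C(unitInterval, unitInterval)) (t : unitInterval) : ext f t = f t := by
  unfold ext
  rw [projIcc_val]

theorem sAlpha_ext (f : C(unitInterval, unitInterval)) (x : unitInterval) :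
    sAlpha f x = (fun y : unitInterval => (y : ℝ)) ⁻¹' (sAlpha (ext f) (x : ℝ)) := by
  ext y
  constructor
  · rintro ⟨u, hu, k, hk, hlim⟩
    refine ⟨fun n => (u n : ℝ), ⟨congrArg _ hu.1, fun n => ?_⟩, k, hk, ?_⟩
    · show ext f (u (n + 1)) = u n
      rw [ext_coe, hu.2 n]
    · exact (continuous_subtype_val.tendsto y).comp hlim
  · rintro ⟨v, hv, k, hk, hlim⟩
    have hmem : ∀ n, v n ∈ Icc (0 : ℝ) 1 := branch_mem (ext_mem f) hv
    refine ⟨fun n => ⟨v n, hmem n⟩, ⟨Subtype.ext hv.1, fun n => Subtype.ext ?_⟩, k, hk, ?_⟩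
    · rw [← ext_coe]
      exact hv.2 n
    · rw [tendsto_subtype_rng]
      exact hlim

theorem closed_sAlpha_of_NW (f : C(unitInterval, unitInterval)) (h : NW (ext f))
    (x : unitInterval) : IsClosed (sAlpha f x) := by
  rw [sAlpha_ext]
  exact (closed_sAlpha (ext_cont f) (ext_mem f) h x).preimage continuous_subtype_val

end Pool.Agent.Lib.MP_2df7e1_an
end

section

/-!
# Generic interval maps have no wandering intervals
-/

namespace Pool.Agent.Lib.MP_2df7e1_an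

open Filter Topology Set Function

/-- two iterates of `(p,q)` overlap -/
def W (p q : ℝ) : Set C(unitInterval, unitInterval) :=
  {f | ∃ i j : ℕ, i < j ∧ ∃ u ∈ Ioo p q, ∃ v ∈ Ioo p q, ∃ w ∈ Ioo p q, ∃ z ∈ Ioo p q,
    (ext f)^[i] u < (ext f)^[j] v ∧ (ext f)^[j] w < (ext f)^[i] z}

theorem cont_iter (u : ℝ) (n : ℕ) :
    Continuous (fun f : C(unitInterval, unitInterval) => (ext f)^[n] u) := by
  induction n with
  | zero => exact continuous_const
  | succ n ih =>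
    simp only [iterate_succ_apply']
    unfold ext at ih ⊢
    refine continuous_subtype_val.comp ?_
    exact continuous_id.eval (continuous_projIcc.comp ih)

theorem W_open (p q : ℝ) : IsOpen (W p q) := by
  have : W p q = ⋃ (i : ℕ) (j : ℕ) (_ : i < j) (u ∈ Ioo p q) (v ∈ Ioo p q) (w ∈ Ioo p q)
      (z ∈ Ioo p q), {f : C(unitInterval, unitInterval) | (ext f)^[i] u < (ext f)^[j] v ∧
        (ext f)^[j] w < (ext f)^[i] z} := by
    ext f
    simp only [W, mem_iUnion, mem_ofPred_eq, exists_prop]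
  rw [this]
  refine isOpen_iUnion fun i => isOpen_iUnion fun j => isOpen_iUnion fun _ =>
    isOpen_biUnion fun u _ => isOpen_biUnion fun v _ => isOpen_biUnion fun w _ =>
    isOpen_biUnion fun z _ => ?_
  exact (isOpen_lt (cont_iter u i) (cont_iter v j)).inter
    (isOpen_lt (cont_iter w j) (cont_iter z i))

theorem NW_of_W {f : C(unitInterval, unitInterval)}
    (h : ∀ p q : ℚ, 0 ≤ p → p < q → q ≤ 1 → f ∈ W p q) : NW (ext f) := by
  intro a b ha hab hb
  obtain ⟨q, haq, hqb⟩ := exists_rat_btwn hab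
  obtain ⟨p, hap, hpq⟩ := exists_rat_btwn haq
  have hp0 : (0 : ℚ) ≤ p := by
    have : (0 : ℝ) ≤ p := by linarith
    exact_mod_cast this
  have hpq' : p < q := by exact_mod_cast hpq
  have hq1 : q ≤ 1 := by
    have : (q : ℝ) ≤ 1 := by linarith
    exact_mod_cast this
  obtain ⟨i, j, hij, u, hu, v, hv, w, hw, z, hz, h1, h2⟩ := h p q hp0 hpq' hq1
  have hc : IsPreconnected (Ioo (p : ℝ) q ×ˢ Ioo (p : ℝ) q) :=
    isPreconnected_Ioo.prod isPreconnected_Ioo
  have hF := ext_cont f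
  obtain ⟨⟨s, t⟩, hst, he⟩ := hc.intermediate_value₂ (a := (u, v)) (b := (z, w))
    ⟨hu, hv⟩ ⟨hz, hw⟩ (f := fun x => (ext f)^[i] x.1) (g := fun x => (ext f)^[j] x.2)
    ((hF.iterate i).comp continuous_fst).continuousOn
    ((hF.iterate j).comp continuous_snd).continuousOn h1.le h2.le
  refine ⟨i, j, hij, s, ?_, t, ?_, he⟩
  · exact ⟨by linarith [hst.1.1], by linarith [hst.1.2]⟩
  · exact ⟨by linarith [hst.2.1], by linarith [hst.2.2]⟩

/-- A map which stretches every interval of length `δ` has overlapping iterates. -/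
theorem W_of_stretch {f : C(unitInterval, unitInterval)} {δ : ℝ} (hδ : 0 < δ)
    (hs : ∀ a b : ℝ, 0 ≤ a → b ≤ 1 → δ ≤ b - a → ∃ s ∈ Icc a b, ∃ t ∈ Icc a b,
      δ ≤ ext f s - ext f t) {p q : ℝ} (hp : 0 ≤ p) (hq : q ≤ 1) (hpq : δ < q - p) :
    f ∈ W p q := by
  set F := ext f with hFdef
  have hF : Continuous F := ext_cont f
  obtain ⟨a, b, ha, hb, hab⟩ : ∃ a b, p < a ∧ b < q ∧ δ ≤ b - a :=
    ⟨p + (q - p - δ) / 2, q - (q - p - δ) / 2, by linarith, by linarith, by linarith⟩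
  have hmem : ∀ k, ∀ t ∈ Icc a b, F^[k] t ∈ Icc (0 : ℝ) 1 := by
    intro k t ht
    cases k with
    | zero => exact ⟨by simp only [iterate_zero, id_eq]; linarith [ht.1],
        by simp only [iterate_zero, id_eq]; linarith [ht.2]⟩
    | succ k =>
      rw [iterate_succ_apply']
      exact ext_mem f _
  have key : ∀ k : ℕ, ∃ l ∈ Icc a b, ∃ h ∈ Icc a b, δ ≤ F^[k] h - F^[k] l := by
    intro k
    induction k with
    | zero =>
      refine ⟨a, ⟨le_rfl, by linarith⟩, b, ⟨by linarith, le_rfl⟩, ?_⟩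
      simpa using hab
    | succ k ih =>
      obtain ⟨l, hl, h, hh, hk⟩ := ih
      obtain ⟨s, hs1, t, ht1, hst⟩ := hs (F^[k] l) (F^[k] h) (hmem k l hl).1 (hmem k h hh).2 hk
      have hoc : OrdConnected (F^[k] '' Icc a b) :=
        (isPreconnected_Icc.image _ (hF.iterate k).continuousOn).ordConnected
      have hsub := hoc.out (mem_image_of_mem _ hl) (mem_image_of_mem _ hh)
      obtain ⟨s', hs', rfl⟩ := hsub hs1
      obtain ⟨t', ht', rfl⟩ := hsub ht1
      refine ⟨t', ht', s', hs', ?_⟩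
      rw [iterate_succ_apply', iterate_succ_apply']
      exact hst
  choose l hl h hh hlh using key
  -- pigeonhole
  obtain ⟨i, j, hij, hlt⟩ : ∃ i j, i < j ∧ |F^[i] (l i) - F^[j] (l j)| < δ := by
    let N : ℕ := ⌈1 / δ⌉₊ + 1
    let c : ℕ → Fin (N + 1) := fun k => ⟨⌊F^[k] (l k) / δ⌋₊, by
      have h1 := (hmem k (l k) (hl k)).2
      have : F^[k] (l k) / δ ≤ 1 / δ := by
        apply div_le_div_of_nonneg_right h1 hδ.le
      have h2 : ⌊F^[k] (l k) / δ⌋₊ ≤ ⌈1 / δ⌉₊ :=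
        (Nat.floor_le_floor this).trans (Nat.floor_le_ceil _)
      omega⟩
    obtain ⟨i, j, hne, hc⟩ := Finite.exists_ne_map_eq_of_infinite c
    have hfl : ⌊F^[i] (l i) / δ⌋₊ = ⌊F^[j] (l j) / δ⌋₊ := congrArg Fin.val hc
    have hab' : |F^[i] (l i) / δ - F^[j] (l j) / δ| < 1 := by
      have hi0 : 0 ≤ F^[i] (l i) / δ := div_nonneg (hmem i (l i) (hl i)).1 hδ.le
      have hj0 : 0 ≤ F^[j] (l j) / δ := div_nonneg (hmem j (l j) (hl j)).1 hδ.le
      have a1 := Nat.floor_le hi0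
      have a2 := Nat.lt_floor_add_one (F^[i] (l i) / δ)
      have a3 := Nat.floor_le hj0
      have a4 := Nat.lt_floor_add_one (F^[j] (l j) / δ)
      rw [hfl] at a1 a2
      rw [abs_lt]
      constructor <;> linarith
    have hlt : |F^[i] (l i) - F^[j] (l j)| < δ := by
      rw [← sub_div, abs_div, abs_of_pos hδ, div_lt_one hδ] at hab'
      exact hab'
    rcases lt_or_gt_of_ne hne with h1 | h1
    · exact ⟨i, j, h1, hlt⟩
    · exact ⟨j, i, h1, by rwa [abs_sub_comm]⟩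
  rw [abs_lt] at hlt
  have hsub : Icc a b ⊆ Ioo p q := fun t ht => ⟨by linarith [ht.1], by linarith [ht.2]⟩
  refine ⟨i, j, hij, l i, hsub (hl i), h j, hsub (hh j), l j, hsub (hl j), h i, hsub (hh i),
    ?_, ?_⟩
  · linarith [hlh j, hlt.2]
  · linarith [hlh i, hlt.1]

end Pool.Agent.Lib.MP_2df7e1_an
end

section

/-!
# Density: adding a fast oscillation
-/

namespace Pool.Agent.Lib.MP_2df7e1_an

open Filter Topology Set Function

/-- the perturbation `f + η cos (π n t)`, cut off to `[0,1]` -/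
noncomputable def pert (f : C(unitInterval, unitInterval)) (η : ℝ) (n : ℕ) :
    C(unitInterval, unitInterval) where
  toFun t := projIcc 0 1 zero_le_one ((f t : ℝ) + η * Real.cos ((n * (t : ℝ)) * Real.pi))
  continuous_toFun := by
    refine continuous_projIcc.comp ?_
    fun_prop

theorem pert_coe (f : C(unitInterval, unitInterval)) (η : ℝ) (n : ℕ) {t : ℝ}
    (ht : t ∈ Icc (0 : ℝ) 1) : ext (pert f η n) t =
      max 0 (min 1 (ext f t + η * Real.cos ((n * t) * Real.pi))) := by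
  have h1 : projIcc 0 1 zero_le_one t = (⟨t, ht⟩ : unitInterval) := projIcc_of_mem _ ht
  unfold ext
  rw [h1]
  exact coe_projIcc 0 1 zero_le_one _

theorem pert_dist (f : C(unitInterval, unitInterval)) {η : ℝ} (hη : 0 < η) (n : ℕ) :
    dist (pert f η n) f ≤ η := by
  rw [ContinuousMap.dist_le hη.le]
  intro t
  rw [Subtype.dist_eq, Real.dist_eq]
  have h1 : ((pert f η n t : unitInterval) : ℝ) =
      max 0 (min 1 ((f t : ℝ) + η * Real.cos ((n * (t : ℝ)) * Real.pi))) :=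
    coe_projIcc 0 1 zero_le_one _
  rw [h1]
  have h2 := (f t).2
  have h3 := Real.cos_le_one ((n * (t : ℝ)) * Real.pi)
  have h4 := Real.neg_one_le_cos ((n * (t : ℝ)) * Real.pi)
  have h5 : η * Real.cos ((n * (t : ℝ)) * Real.pi) ≤ η := by nlinarith
  have h6 : -η ≤ η * Real.cos ((n * (t : ℝ)) * Real.pi) := by nlinarith
  rw [abs_le]
  constructor
  · have : (f t : ℝ) - η ≤ min 1 ((f t : ℝ) + η * Real.cos ((n * (t : ℝ)) * Real.pi)) :=
      le_min (by linarith [h2.2]) (by linarith)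
    have := this.trans (le_max_right 0 _)
    linarith
  · have : max 0 (min 1 ((f t : ℝ) + η * Real.cos ((n * (t : ℝ)) * Real.pi))) ≤ (f t : ℝ) + η :=
      max_le (by linarith [h2.1]) ((min_le_right _ _).trans (by linarith))
    linarith

theorem stretch (f : C(unitInterval, unitInterval)) {η : ℝ} (hη : 0 < η) (hη2 : η ≤ 1 / 2) {n : ℕ}
    (hn : 0 < n) (hf : ∀ s ∈ Icc (0 : ℝ) 1, ∀ t ∈ Icc (0 : ℝ) 1, |s - t| ≤ 1 / (n : ℝ) →
      |ext f s - ext f t| ≤ η) {a b : ℝ} (ha : 0 ≤ a) (hb : b ≤ 1) (hab : 2 / (n : ℝ) ≤ b - a) :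
    ∃ s ∈ Icc a b, ∃ t ∈ Icc a b, η ≤ ext (pert f η n) s - ext (pert f η n) t := by
  have hn' : (0 : ℝ) < n := by exact_mod_cast hn
  obtain ⟨s, hs, t, ht, hst, hcs, hct⟩ : ∃ s ∈ Icc a b, ∃ t ∈ Icc a b, |s - t| ≤ 1 / (n : ℝ) ∧
      Real.cos ((n * s) * Real.pi) = 1 ∧ Real.cos ((n * t) * Real.pi) = -1 := by
    set m : ℕ := ⌈a * n⌉₊ with hm
    have h1 : a * n ≤ m := Nat.le_ceil _
    have h2 : (m : ℝ) < a * n + 1 := Nat.ceil_lt_add_one (by positivity)
    have e1 : (n : ℝ) * ((m : ℝ) / n) = m := by field_simp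
    have e2 : (n : ℝ) * (((m : ℝ) + 1) / n) = ((m + 1 : ℕ) : ℝ) := by
      push_cast
      field_simp
    have hb' : a * n + 2 ≤ b * n := by
      rw [div_le_iff₀ hn'] at hab
      linarith
    have m1 : (m : ℝ) / n ∈ Icc a b := by
      constructor
      · rw [le_div_iff₀ hn']; exact h1
      · rw [div_le_iff₀ hn']; linarith
    have m2 : ((m : ℝ) + 1) / n ∈ Icc a b := by
      constructor
      · rw [le_div_iff₀ hn']; linarith
      · rw [div_le_iff₀ hn']; linarith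
    have c1 : Real.cos ((n * ((m : ℝ) / n)) * Real.pi) = (-1) ^ m := by
      rw [e1, Real.cos_nat_mul_pi]
    have c2 : Real.cos ((n * (((m : ℝ) + 1) / n)) * Real.pi) = (-1) ^ (m + 1) := by
      rw [e2, Real.cos_nat_mul_pi]
    have hd : ((m : ℝ) + 1) / n - (m : ℝ) / n = 1 / n := by
      field_simp
      ring
    have hp : (0 : ℝ) ≤ 1 / n := by positivity
    rcases Nat.even_or_odd m with hm' | hm'
    · refine ⟨_, m1, _, m2, ?_, ?_, ?_⟩
      · rw [abs_sub_comm, hd, abs_of_nonneg hp]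
      · rw [c1, hm'.neg_one_pow]
      · rw [c2, hm'.add_one.neg_one_pow]
    · refine ⟨_, m2, _, m1, ?_, ?_, ?_⟩
      · rw [hd, abs_of_nonneg hp]
      · rw [c2, hm'.add_one.neg_one_pow]
      · rw [c1, hm'.neg_one_pow]
  have hs' : s ∈ Icc (0 : ℝ) 1 := ⟨ha.trans hs.1, hs.2.trans hb⟩
  have ht' : t ∈ Icc (0 : ℝ) 1 := ⟨ha.trans ht.1, ht.2.trans hb⟩
  refine ⟨s, hs, t, ht, ?_⟩
  rw [pert_coe f η n hs', pert_coe f η n ht', hcs, hct]
  have hfst := abs_le.1 (hf s hs' t ht' hst)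
  have k1 := ext_mem f s
  have k2 := ext_mem f t
  have g1 : min 1 (ext f s + η * 1) ≤ max 0 (min 1 (ext f s + η * 1)) := le_max_right _ _
  have g2 : max 0 (min 1 (ext f t + η * -1)) ≤ max 0 (ext f t - η) := by
    apply max_le_max le_rfl
    refine (min_le_right _ _).trans ?_
    linarith
  have g3 : max 0 (ext f t - η) + η ≤ min 1 (ext f s + η * 1) := by
    rw [← max_add_add_right]
    refine le_min (max_le (by linarith) (by linarith [k2.2])) (max_le ?_ ?_)
    · linarith [k1.1]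
    · linarith [hfst.1]
  linarith

theorem W_dense {p q : ℝ} (hp : 0 ≤ p) (hpq : p < q) (hq : q ≤ 1) : Dense (W p q) := by
  rw [Metric.dense_iff]
  intro f ε hε
  set η : ℝ := min (ε / 2) (1 / 2) with hηdef
  have hη : 0 < η := lt_min (by linarith) (by norm_num)
  have hη1 : η ≤ ε / 2 := min_le_left _ _
  have hη2 : η ≤ 1 / 2 := min_le_right _ _
  have huc : UniformContinuous f := CompactSpace.uniformContinuous_of_continuous f.continuous
  obtain ⟨δ, hδ, hfδ⟩ := Metric.uniformContinuous_iff.1 huc η hη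
  obtain ⟨n, hn⟩ := exists_nat_gt (max (1 / δ) (max (2 / η) (2 / (q - p))))
  have hn1 : 1 / δ < n := lt_of_le_of_lt (le_max_left _ _) hn
  have hn2 : 2 / η < n := lt_of_le_of_lt ((le_max_left _ _).trans (le_max_right _ _)) hn
  have hn3 : 2 / (q - p) < n := lt_of_le_of_lt ((le_max_right _ _).trans (le_max_right _ _)) hn
  have hn0 : (0 : ℝ) < n := lt_trans (by positivity) hn1
  have hn0' : 0 < n := by exact_mod_cast hn0
  have hd1 : 1 / (n : ℝ) < δ := by
    rw [div_lt_iff₀ hδ] at hn1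
    rw [div_lt_iff₀ hn0]
    linarith
  have hd2 : 2 / (n : ℝ) ≤ η := by
    rw [div_lt_iff₀ hη] at hn2
    rw [div_le_iff₀ hn0]
    linarith
  have hd3 : 2 / (n : ℝ) < q - p := by
    rw [div_lt_iff₀ (by linarith)] at hn3
    rw [div_lt_iff₀ hn0]
    linarith
  have huf : ∀ s ∈ Icc (0 : ℝ) 1, ∀ t ∈ Icc (0 : ℝ) 1, |s - t| ≤ 1 / (n : ℝ) →
      |ext f s - ext f t| ≤ η := by
    intro s hs t ht hst
    have h1 := hfδ (a := ⟨s, hs⟩) (b := ⟨t, ht⟩) (by
      rw [Subtype.dist_eq, Real.dist_eq]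
      exact lt_of_le_of_lt hst hd1)
    rw [Subtype.dist_eq, Real.dist_eq] at h1
    have e1 : ext f s = f ⟨s, hs⟩ := ext_coe f ⟨s, hs⟩
    have e2 : ext f t = f ⟨t, ht⟩ := ext_coe f ⟨t, ht⟩
    rw [e1, e2]
    exact h1.le
  refine ⟨pert f η n, ?_, ?_⟩
  · rw [Metric.mem_ball]
    exact lt_of_le_of_lt (pert_dist f hη n) (by linarith)
  · refine W_of_stretch (δ := 2 / (n : ℝ)) (by positivity) ?_ hp hq hd3
    intro a b ha hb hab
    obtain ⟨s, hs, t, ht, hst⟩ := stretch f hη hη2 hn0' huf ha hb hab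
    exact ⟨s, hs, t, ht, hd2.trans hst⟩

theorem generic_NW : ∀ᶠ f : C(unitInterval, unitInterval) in residual C(unitInterval, unitInterval),
    NW (ext f) := by
  have h : ∀ᶠ f : C(unitInterval, unitInterval) in residual C(unitInterval, unitInterval),
      ∀ p q : ℚ, 0 ≤ p → p < q → q ≤ 1 → f ∈ W p q := by
    rw [eventually_countable_forall]
    intro p
    rw [eventually_countable_forall]
    intro q
    by_cases hc : 0 ≤ p ∧ p < q ∧ q ≤ 1
    · obtain ⟨h1, h2, h3⟩ := hc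
      have := residual_of_dense_open (W_open p q) (W_dense (by exact_mod_cast h1)
        (by exact_mod_cast h2) (by exact_mod_cast h3))
      filter_upwards [this] with f hf _ _ _
      exact hf
    · refine Eventually.of_forall fun f h1 h2 h3 => ?_
      exact absurd ⟨h1, h2, h3⟩ hc
  filter_upwards [h] with f hf
  exact NW_of_W hf

end Pool.Agent.Lib.MP_2df7e1_an
end
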